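import Mathlib

/-!
# Constancy regions of mixed test ideals need not be connected
-/

namespace Pool.Agent.Results.MP_e15572_ag.Disconnected

open MvPolynomial

section defs
variable {R : Type*} [CommRing R]

/-- The Frobenius power `J^{[p^e]}`: the ideal generated by the `p^e`-th powers of the elements
of `J`. -/
def frobPow (p : ℕ) (J : Ideal R) (e : ℕ) : Ideal R :=
  Ideal.span {g | ∃ f ∈ J, g = f ^ p ^ e}

/-- `b^{[1/p^e]}`: the smallest ideal `J` with `b ⊆ J^{[p^e]}` (the intersection of all of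
them). -/
def frobRoot (p : ℕ) (b : Ideal R) (e : ℕ) : Ideal R :=
  sInf {J | b ≤ frobPow p J e}

/-- The mixed test ideal `τ(a₁^{t₁} ⋯ aₙ^{tₙ}) = ⋃ₑ (∏ aᵢ^⌈tᵢ pᵉ⌉)^{[1/pᵉ]}` (increasing union). -/
noncomputable def testIdeal (p : ℕ) {n : ℕ} (a : Fin n → Ideal R) (t : Fin n → ℝ) : Ideal R :=
  ⨆ e : ℕ, frobRoot p (∏ i, a i ^ ⌈t i * (p : ℝ) ^ e⌉₊) e

/-- The constancy region of `τ(a^c)` in `ℝⁿ_{≥0}`, as a subset of `ℝⁿ`. -/
def constancyRegion (p : ℕ) {n : ℕ} (a : Fin n → Ideal R) (c : Fin n → ℝ) : Set (Fin n → ℝ) :=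
  {c' | (∀ i, 0 ≤ c' i) ∧ testIdeal p a c' = testIdeal p a c}

end defs

section general
variable {R : Type*} [CommRing R]

lemma frobRoot_mono {p : ℕ} {b b' : Ideal R} (h : b ≤ b') (e : ℕ) :
    frobRoot p b e ≤ frobRoot p b' e := by
  apply sInf_le_sInf
  intro J hJ
  exact h.trans hJ

lemma testIdeal_anti {p n : ℕ} {a : Fin n → Ideal R} {t t' : Fin n → ℝ} (h : ∀ i, t i ≤ t' i) :
    testIdeal p a t' ≤ testIdeal p a t := by
  apply iSup_mono
  intro e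
  apply frobRoot_mono
  apply Finset.prod_le_prod' 
  intro i _
  apply Ideal.pow_le_pow_right
  apply Nat.ceil_mono
  exact mul_le_mul_of_nonneg_right (h i) (by positivity)

lemma testIdeal_le {p n : ℕ} {a : Fin n → Ideal R} {t : Fin n → ℝ} {J : Ideal R}
    (h : ∀ e : ℕ, ∏ i, a i ^ ⌈t i * (p : ℝ) ^ e⌉₊ ≤ frobPow p J e) :
    testIdeal p a t ≤ J := by
  apply iSup_le
  intro e
  exact sInf_le (h e)

end general

section poly
variable (p : ℕ) [hp : Fact p.Prime]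

/-- the polynomial ring `𝔽_p[x,y]` -/
abbrev A := MvPolynomial (Fin 2) (ZMod p)

/-- The `p^{-e}`-linear map picking out the exponents congruent to `r` mod `q`. -/
noncomputable def phi (q : ℕ) (r : Fin 2 →₀ ℕ) : A p →ₗ[ZMod p] A p :=
  (basisMonomials (Fin 2) (ZMod p)).constr (ZMod p)
    (fun v => if (∀ i, v i % q = r i % q) then
      monomial (v.mapRange (· / q) (Nat.zero_div q)) 1 else 0)

lemma phi_monomial (q : ℕ) (r v : Fin 2 →₀ ℕ) (c : ZMod p) :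
    phi p q r (monomial v c) = if (∀ i, v i % q = r i % q) then
      monomial (v.mapRange (· / q) (Nat.zero_div q)) c else 0 := by
  have h1 : (monomial v c : A p) = c • (basisMonomials (Fin 2) (ZMod p)) v := by
    rw [coe_basisMonomials, smul_monomial, smul_eq_mul, mul_one]
  rw [h1, map_smul, phi, Module.Basis.constr_basis]
  split_ifs
  · rw [smul_monomial, smul_eq_mul, mul_one]
  · rw [smul_zero]

lemma zmod_pow (c : ZMod p) (e : ℕ) : c ^ p ^ e = c := ZMod.pow_card_pow c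

lemma phi_pow_mul (e : ℕ) (r : Fin 2 →₀ ℕ) (h g : A p) :
    phi p (p ^ e) r (h ^ p ^ e * g) = h * phi p (p ^ e) r g := by
  have hq : 0 < p ^ e := pow_pos hp.out.pos e
  induction h using MvPolynomial.induction_on' with
  | monomial a c =>
    induction g using MvPolynomial.induction_on' with
    | monomial v d =>
      rw [monomial_pow, monomial_mul, phi_monomial, phi_monomial, zmod_pow]
      have h1 : ∀ i, (p ^ e • a + v) i % p ^ e = v i % p ^ e := by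
        intro i
        simp [Nat.add_mod]
      have h2 : (p ^ e • a + v).mapRange (· / p ^ e) (Nat.zero_div _)
          = a + v.mapRange (· / p ^ e) (Nat.zero_div _) := by
        ext i
        simp only [Finsupp.mapRange_apply, Finsupp.add_apply, Finsupp.smul_apply, smul_eq_mul]
        rw [Nat.mul_add_div hq]
      simp only [h1, h2]
      split_ifs
      · rw [monomial_mul]
      · rw [mul_zero]
    | add g1 g2 h1 h2 => rw [mul_add, map_add, map_add, h1, h2, mul_add]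
  | add h1 h2 ih1 ih2 =>
    rw [add_pow_char_pow, add_mul, map_add, ih1, ih2, add_mul]

lemma phi_frobPow' {e : ℕ} {J : Ideal (A p)} (r : Fin 2 →₀ ℕ) {g : A p}
    (hg : g ∈ frobPow p J e) : ∀ a, phi p (p ^ e) r (a * g) ∈ J := by
  unfold frobPow at hg
  induction hg using Submodule.span_induction with
  | mem x hx =>
    intro a
    obtain ⟨f, hf, rfl⟩ := hx
    rw [mul_comm, phi_pow_mul p e r f a]
    exact J.mul_mem_right _ hf
  | zero => intro a; rw [mul_zero, map_zero]; exact J.zero_mem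
  | add x y _ _ hx hy => intro a; rw [mul_add, map_add]; exact J.add_mem (hx a) (hy a)
  | smul b x _ hx =>
    intro a
    rw [smul_eq_mul, ← mul_assoc]
    exact hx (a * b)

lemma phi_frobPow {e : ℕ} {J : Ideal (A p)} (r : Fin 2 →₀ ℕ) {g : A p}
    (hg : g ∈ frobPow p J e) : phi p (p ^ e) r g ∈ J := by
  have := phi_frobPow' p r hg 1
  rwa [one_mul] at this

/-- the monomial `x^a y^b` -/
noncomputable def mo (v : ℕ × ℕ) : A p := X 0 ^ v.1 * X 1 ^ v.2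

lemma mo_mul (v w : ℕ × ℕ) : mo p v * mo p w = mo p (v + w) := by
  simp only [mo, Prod.fst_add, Prod.snd_add]; ring

lemma mo_pow (v : ℕ × ℕ) (n : ℕ) : mo p v ^ n = mo p (n * v.1, n * v.2) := by
  simp only [mo]; ring

lemma mo_eq (v : ℕ × ℕ) :
    mo p v = monomial (Finsupp.single 0 v.1 + Finsupp.single 1 v.2) 1 := by
  rw [mo, X_pow_eq_monomial, X_pow_eq_monomial, monomial_mul, one_mul]

/-- if `x^v ∈ J^{[q]}` then `x^⌊v/q⌋ ∈ J` -/
lemma mo_div_mem {e : ℕ} {J : Ideal (A p)} {v : ℕ × ℕ} (h : mo p v ∈ frobPow p J e) :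
    mo p (v.1 / p ^ e, v.2 / p ^ e) ∈ J := by
  have h1 := phi_frobPow p (Finsupp.single 0 v.1 + Finsupp.single 1 v.2) h
  rw [mo_eq, phi_monomial, if_pos (fun i => rfl)] at h1
  have h2 : (Finsupp.single 0 (v.1 / p ^ e) + Finsupp.single 1 (v.2 / p ^ e) : Fin 2 →₀ ℕ) =
      (Finsupp.single 0 v.1 + Finsupp.single 1 v.2 : Fin 2 →₀ ℕ).mapRange (· / p ^ e)
        (Nat.zero_div _) := by
    ext i
    fin_cases i <;> simp
  rw [mo_eq, h2]
  exact h1

lemma mo_mem_frobPow {e : ℕ} {J : Ideal (A p)} {v w : ℕ × ℕ} (h : mo p w ∈ J)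
    (h1 : p ^ e * w.1 ≤ v.1) (h2 : p ^ e * w.2 ≤ v.2) : mo p v ∈ frobPow p J e := by
  have h3 : mo p v = mo p (v.1 - p ^ e * w.1, v.2 - p ^ e * w.2) * mo p w ^ p ^ e := by
    rw [mo_pow, mo_mul]
    congr 1
    ext <;> simp <;> omega
  rw [h3]
  exact Ideal.mul_mem_left _ _ (Ideal.subset_span ⟨_, h, rfl⟩)

/-- ideal generated by the monomials with exponent in `S` -/
noncomputable def monId (S : Set (ℕ × ℕ)) : Ideal (A p) := Ideal.span (mo p '' S)

lemma mo_mem_monId {S : Set (ℕ × ℕ)} {v : ℕ × ℕ} (h : v ∈ S) : mo p v ∈ monId p S :=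
  Ideal.subset_span ⟨v, h, rfl⟩

lemma monId_le {S : Set (ℕ × ℕ)} {I : Ideal (A p)} (h : ∀ v ∈ S, mo p v ∈ I) :
    monId p S ≤ I := by
  apply Ideal.span_le.2
  rintro _ ⟨v, hv, rfl⟩
  exact h v hv

lemma monId_mul_le {S T U : Set (ℕ × ℕ)} (h : ∀ v ∈ S, ∀ w ∈ T, v + w ∈ U) :
    monId p S * monId p T ≤ monId p U := by
  rw [monId, monId, Ideal.span_mul_span']
  apply Ideal.span_le.2
  rintro _ ⟨_, ⟨v, hv, rfl⟩, _, ⟨w, hw, rfl⟩, rfl⟩
  simp only [mo_mul]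
  exact mo_mem_monId p (h v hv w hw)

lemma monId_pow_le {S : Set (ℕ × ℕ)} (Q : ℕ → Set (ℕ × ℕ)) (h0 : (0, 0) ∈ Q 0)
    (h : ∀ n, ∀ v ∈ Q n, ∀ w ∈ S, v + w ∈ Q (n + 1)) (n : ℕ) :
    monId p S ^ n ≤ monId p (Q n) := by
  induction n with
  | zero =>
    rw [pow_zero, Ideal.one_eq_top, top_le_iff, Ideal.eq_top_iff_one]
    have := mo_mem_monId p h0
    simpa [mo] using this
  | succ n ih =>
    rw [pow_succ]
    exact (Ideal.mul_mono_left ih).trans (monId_mul_le p (h n))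

/-- the ideal `(y³, x²y, x⁸)` -/
noncomputable def a1 : Ideal (A p) := Ideal.span {X 1 ^ 3, X 0 ^ 2 * X 1, X 0 ^ 8}
/-- the ideal `(y⁴, xy, x⁷)` -/
noncomputable def a2 : Ideal (A p) := Ideal.span {X 1 ^ 4, X 0 * X 1, X 0 ^ 7}
/-- the ideal `(x², xy, y²)` -/
noncomputable def j0 : Ideal (A p) := Ideal.span {X 0 ^ 2, X 0 * X 1, X 1 ^ 2}
/-- the ideal `(x³, y)` -/
noncomputable def j2 : Ideal (A p) := Ideal.span {X 0 ^ 3, X 1}

lemma a1_eq : a1 p = monId p {(0, 3), (2, 1), (8, 0)} := by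
  simp [a1, monId, Set.image_insert_eq, mo]

lemma a2_eq : a2 p = monId p {(0, 4), (1, 1), (7, 0)} := by
  simp [a2, monId, Set.image_insert_eq, mo]

lemma j0_eq : j0 p = monId p {(2, 0), (1, 1), (0, 2)} := by
  simp [j0, monId, Set.image_insert_eq, mo]

lemma j2_eq : j2 p = monId p {(3, 0), (0, 1)} := by
  simp [j2, monId, Set.image_insert_eq, mo]

lemma y_notMem : (mo p (0, 1)) ∉ j0 p := by
  intro h
  let φ : A p →ₐ[ZMod p] Polynomial (ZMod p) := aeval ![0, Polynomial.X]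
  have h1 : j0 p ≤ Ideal.comap φ (Ideal.span {Polynomial.X ^ 2}) := by
    apply Ideal.span_le.2
    rintro g (rfl | rfl | rfl)
    · simp [φ]
    · simp [φ]
    · simp [φ]
  have h2 := h1 h
  rw [Ideal.mem_comap, Ideal.mem_span_singleton] at h2
  have h3 : φ (mo p (0, 1)) = Polynomial.X ^ 1 := by simp [φ, mo]
  rw [h3, pow_dvd_pow_iff Polynomial.X_ne_zero Polynomial.not_isUnit_X] at h2
  omega

lemma x2_notMem : (mo p (2, 0)) ∉ j2 p := by
  intro h
  let φ : A p →ₐ[ZMod p] Polynomial (ZMod p) := aeval ![Polynomial.X, 0]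
  have h1 : j2 p ≤ Ideal.comap φ (Ideal.span {Polynomial.X ^ 3}) := by
    apply Ideal.span_le.2
    rintro g (rfl | rfl)
    · simp [φ]
    · simp [φ]
  have h2 := h1 h
  rw [Ideal.mem_comap, Ideal.mem_span_singleton] at h2
  have h3 : φ (mo p (2, 0)) = Polynomial.X ^ 2 := by simp [φ, mo]
  rw [h3, pow_dvd_pow_iff Polynomial.X_ne_zero Polynomial.not_isUnit_X] at h2
  omega

lemma mem_testIdeal {n : ℕ} {a : Fin n → Ideal (A p)} {t : Fin n → ℝ} (e : ℕ) {v w : ℕ × ℕ}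
    (hw : mo p w ∈ ∏ i, a i ^ ⌈t i * (p : ℝ) ^ e⌉₊) (h1 : w.1 / p ^ e = v.1)
    (h2 : w.2 / p ^ e = v.2) : mo p v ∈ testIdeal p a t := by
  apply le_iSup (fun e : ℕ => frobRoot p (∏ i, a i ^ ⌈t i * (p : ℝ) ^ e⌉₊) e) e
  rw [frobRoot, Submodule.mem_sInf]
  intro J hJ
  have := mo_div_mem p (hJ hw)
  rw [h1, h2] at this
  exact this

lemma mo_mem_a1 {v : ℕ × ℕ} (i j k : ℕ) (h : v = (2 * j + 8 * k, 3 * i + j)) :
    mo p v ∈ a1 p ^ (i + j + k) := by
  have h1 : mo p v = (X 1 ^ 3) ^ i * (X 0 ^ 2 * X 1) ^ j * (X 0 ^ 8) ^ k := by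
    rw [h, mo]; ring
  rw [h1, pow_add, pow_add]
  refine Ideal.mul_mem_mul (Ideal.mul_mem_mul ?_ ?_) ?_ <;> apply Ideal.pow_mem_pow <;>
    apply Ideal.subset_span <;> simp

lemma mo_mem_a2 {v : ℕ × ℕ} (i j k : ℕ) (h : v = (j + 7 * k, 4 * i + j)) :
    mo p v ∈ a2 p ^ (i + j + k) := by
  have h1 : mo p v = (X 1 ^ 4) ^ i * (X 0 * X 1) ^ j * (X 0 ^ 7) ^ k := by
    rw [h, mo]; ring
  rw [h1, pow_add, pow_add]
  refine Ideal.mul_mem_mul (Ideal.mul_mem_mul ?_ ?_) ?_ <;> apply Ideal.pow_mem_pow <;>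
    apply Ideal.subset_span <;> simp

lemma q_pos (e : ℕ) : 1 ≤ p ^ e := pow_pos hp.out.pos e

lemma q_big : 64 ≤ p ^ 6 := by
  have : 2 ^ 6 ≤ p ^ 6 := Nat.pow_le_pow_left hp.out.two_le 6
  simpa using this

lemma a1_pow_le (m : ℕ) : a1 p ^ m ≤ monId p {v | 3 * m ≤ v.1 + v.2 ∧ 8 * m ≤ v.1 + 6 * v.2} := by
  rw [a1_eq]
  apply monId_pow_le p (fun m => {v | 3 * m ≤ v.1 + v.2 ∧ 8 * m ≤ v.1 + 6 * v.2})
  · simp
  · rintro n ⟨v1, v2⟩ ⟨hv, hv'⟩ w (rfl | rfl | rfl) <;> constructor <;> simp at hv hv' ⊢ <;> omega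

lemma a2_pow_le (m : ℕ) :
    a2 p ^ m ≤ monId p {v | 4 * m ≤ 3 * v.1 + v.2 ∧ 7 * m ≤ v.1 + 6 * v.2} := by
  rw [a2_eq]
  apply monId_pow_le p (fun m => {v | 4 * m ≤ 3 * v.1 + v.2 ∧ 7 * m ≤ v.1 + 6 * v.2})
  · simp
  · rintro n ⟨v1, v2⟩ ⟨hv, hv'⟩ w (rfl | rfl | rfl) <;> constructor <;> simp at hv hv' ⊢ <;> omega

lemma mem_j0_pow {e : ℕ} {v : ℕ × ℕ}
    (h : 2 * p ^ e ≤ v.1 ∨ (p ^ e ≤ v.1 ∧ p ^ e ≤ v.2) ∨ 2 * p ^ e ≤ v.2) :
    mo p v ∈ frobPow p (j0 p) e := by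
  rcases h with h | ⟨h, h'⟩ | h
  · apply mo_mem_frobPow p (w := (2, 0))
    · rw [j0_eq]; apply mo_mem_monId; simp
    · simp only; omega
    · simp
  · apply mo_mem_frobPow p (w := (1, 1))
    · rw [j0_eq]; apply mo_mem_monId; simp
    · simp only; omega
    · simp only; omega
  · apply mo_mem_frobPow p (w := (0, 2))
    · rw [j0_eq]; apply mo_mem_monId; simp
    · simp
    · simp only; omega

lemma mem_j2_pow {e : ℕ} {v : ℕ × ℕ} (h : 3 * p ^ e ≤ v.1 ∨ p ^ e ≤ v.2) :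
    mo p v ∈ frobPow p (j2 p) e := by
  rcases h with h | h
  · apply mo_mem_frobPow p (w := (3, 0))
    · rw [j2_eq]; apply mo_mem_monId; simp
    · simp only; omega
    · simp
  · apply mo_mem_frobPow p (w := (0, 1))
    · rw [j2_eq]; apply mo_mem_monId; simp
    · simp
    · simp only; omega

/-- the pair `(a₁, a₂)` -/
noncomputable def aa : Fin 2 → Ideal (A p) := ![a1 p, a2 p]

lemma prod_c (e : ℕ) : (∏ i, aa p i ^ ⌈(![1, 0] : Fin 2 → ℝ) i * (p : ℝ) ^ e⌉₊) = a1 p ^ p ^ e := by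
  have h : ⌈(p : ℝ) ^ e⌉₊ = p ^ e := by exact_mod_cast Nat.ceil_natCast (R := ℝ) (p ^ e)
  simp [Fin.prod_univ_two, aa, h]

/-- `τ(a^c) = (x², xy, y²)` for `c = (1, 0)` -/
lemma test_c : testIdeal p (aa p) ![1, 0] = j0 p := by
  apply le_antisymm
  · apply testIdeal_le
    intro e
    rw [prod_c]
    refine (a1_pow_le p _).trans (monId_le p ?_)
    rintro ⟨v1, v2⟩ ⟨h1, h2⟩
    apply mem_j0_pow
    simp only at h1 h2 ⊢
    omega
  · have hq := q_big p
    apply Ideal.span_le.2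
    have key : ∀ v w : ℕ × ℕ, mo p w ∈ a1 p ^ p ^ 6 → w.1 / p ^ 6 = v.1 → w.2 / p ^ 6 = v.2 →
        mo p v ∈ testIdeal p (aa p) ![1, 0] := by
      intro v w h1 h2 h3
      apply mem_testIdeal p 6 _ h2 h3
      rw [prod_c]
      exact h1
    rintro g (rfl | rfl | rfl)
    · have := key (2, 0) (2 * (p ^ 6 - 1) + 8, p ^ 6 - 1) (by
        have := mo_mem_a1 p (v := (2 * (p ^ 6 - 1) + 8, p ^ 6 - 1)) 0 (p ^ 6 - 1) 1 (by simp)
        convert this using 2
        omega) (by simp only; rw [Nat.div_eq_iff] <;> omega)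
        (by simp only; rw [Nat.div_eq_iff] <;> omega)
      simpa [mo] using this
    · have := key (1, 1) (2 * (p ^ 6 - 1), p ^ 6 + 2) (by
        have := mo_mem_a1 p (v := (2 * (p ^ 6 - 1), p ^ 6 + 2)) 1 (p ^ 6 - 1) 0
          (by ext <;> simp only <;> omega)
        convert this using 2
        omega) (by simp only; rw [Nat.div_eq_iff] <;> omega)
        (by simp only; rw [Nat.div_eq_iff] <;> omega)
      simpa [mo] using this
    · have := key (0, 2) (2, 3 * (p ^ 6 - 1) + 1) (by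
        have := mo_mem_a1 p (v := (2, 3 * (p ^ 6 - 1) + 1)) (p ^ 6 - 1) 1 0
          (by ext <;> simp only <;> omega)
        convert this using 2
        omega) (by simp only; rw [Nat.div_eq_iff] <;> omega)
        (by simp only; rw [Nat.div_eq_iff] <;> omega)
      simpa [mo] using this

lemma prod_c' (e : ℕ) : ∃ m : ℕ, 5 * p ^ e ≤ 4 * m ∧ 4 * m ≤ 5 * p ^ e + 3 ∧
    (∏ i, aa p i ^ ⌈(![0, 5 / 4] : Fin 2 → ℝ) i * (p : ℝ) ^ e⌉₊) = a2 p ^ m := by
  refine ⟨⌈(5 / 4 : ℝ) * (p : ℝ) ^ e⌉₊, ?_, ?_, ?_⟩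
  · have h := Nat.le_ceil ((5 / 4 : ℝ) * (p : ℝ) ^ e)
    have : (5 : ℝ) * (p : ℝ) ^ e ≤ 4 * (⌈(5 / 4 : ℝ) * (p : ℝ) ^ e⌉₊ : ℝ) := by linarith
    exact_mod_cast this
  · have h := Nat.ceil_lt_add_one (a := (5 / 4 : ℝ) * (p : ℝ) ^ e) (by positivity)
    have : 4 * (⌈(5 / 4 : ℝ) * (p : ℝ) ^ e⌉₊ : ℝ) < (5 : ℝ) * (p : ℝ) ^ e + 4 := by linarith
    have h2 : 4 * ⌈(5 / 4 : ℝ) * (p : ℝ) ^ e⌉₊ < 5 * p ^ e + 4 := by exact_mod_cast this
    omega
  · simp [Fin.prod_univ_two, aa]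

/-- `τ(a^c') = (x², xy, y²)` for `c' = (0, 5/4)` -/
lemma test_c' : testIdeal p (aa p) ![0, 5 / 4] = j0 p := by
  apply le_antisymm
  · apply testIdeal_le
    intro e
    obtain ⟨m, hm1, hm2, hm⟩ := prod_c' p e
    have hq := q_pos p e
    rw [hm]
    refine (a2_pow_le p _).trans (monId_le p ?_)
    rintro ⟨v1, v2⟩ ⟨h1, h2⟩
    apply mem_j0_pow
    simp only at h1 h2 ⊢
    omega
  · have hq := q_big p
    obtain ⟨m, hm1, hm2, hm⟩ := prod_c' p 6
    apply Ideal.span_le.2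
    have key : ∀ v w : ℕ × ℕ, mo p w ∈ a2 p ^ m → w.1 / p ^ 6 = v.1 → w.2 / p ^ 6 = v.2 →
        mo p v ∈ testIdeal p (aa p) ![0, 5 / 4] := by
      intro v w h1 h2 h3
      apply mem_testIdeal p 6 _ h2 h3
      rw [hm]
      exact h1
    rintro g (rfl | rfl | rfl)
    · have := key (2, 0) ((p ^ 6 - 1) + 7 * (m - (p ^ 6 - 1)), p ^ 6 - 1) (by
        have := mo_mem_a2 p (v := ((p ^ 6 - 1) + 7 * (m - (p ^ 6 - 1)), p ^ 6 - 1)) 0 (p ^ 6 - 1)
          (m - (p ^ 6 - 1)) (by ext <;> simp only <;> omega)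
        convert this using 2
        omega) (by simp only; rw [Nat.div_eq_iff] <;> omega)
        (by simp only; rw [Nat.div_eq_iff] <;> omega)
      simpa [mo] using this
    · have := key (1, 1) (m, m) (by
        have := mo_mem_a2 p (v := (m, m)) 0 m 0 (by ext <;> simp only <;> omega)
        convert this using 2
        omega) (by simp only; rw [Nat.div_eq_iff] <;> omega)
        (by simp only; rw [Nat.div_eq_iff] <;> omega)
      simpa [mo] using this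
    · have := key (0, 2) (p ^ 6 - 1, (p ^ 6 - 1) + 4 * (m - (p ^ 6 - 1))) (by
        have := mo_mem_a2 p (v := (p ^ 6 - 1, (p ^ 6 - 1) + 4 * (m - (p ^ 6 - 1))))
          (m - (p ^ 6 - 1)) (p ^ 6 - 1) 0 (by ext <;> simp only <;> omega)
        convert this using 2
        omega) (by simp only; rw [Nat.div_eq_iff] <;> omega)
        (by simp only; rw [Nat.div_eq_iff] <;> omega)
      simpa [mo] using this

lemma prod_t (e : ℕ) : ∃ m : ℕ, p ^ e ≤ 4 * m ∧ 4 * m ≤ p ^ e + 3 ∧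
    (∏ i, aa p i ^ ⌈(![1 / 4, 1] : Fin 2 → ℝ) i * (p : ℝ) ^ e⌉₊) = a1 p ^ m * a2 p ^ p ^ e := by
  have h0 : ⌈(p : ℝ) ^ e⌉₊ = p ^ e := by exact_mod_cast Nat.ceil_natCast (R := ℝ) (p ^ e)
  refine ⟨⌈(1 / 4 : ℝ) * (p : ℝ) ^ e⌉₊, ?_, ?_, ?_⟩
  · have h := Nat.le_ceil ((1 / 4 : ℝ) * (p : ℝ) ^ e)
    have : (p : ℝ) ^ e ≤ 4 * (⌈(1 / 4 : ℝ) * (p : ℝ) ^ e⌉₊ : ℝ) := by linarith
    exact_mod_cast this
  · have h := Nat.ceil_lt_add_one (a := (1 / 4 : ℝ) * (p : ℝ) ^ e) (by positivity)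
    have : 4 * (⌈(1 / 4 : ℝ) * (p : ℝ) ^ e⌉₊ : ℝ) < (p : ℝ) ^ e + 4 := by linarith
    have h2 : 4 * ⌈(1 / 4 : ℝ) * (p : ℝ) ^ e⌉₊ < p ^ e + 4 := by exact_mod_cast this
    omega
  · simp [Fin.prod_univ_two, aa, h0]

/-- `τ(a^t) ⊆ (x³, y)` for `t = (1/4, 1)` -/
lemma test_t_le : testIdeal p (aa p) ![1 / 4, 1] ≤ j2 p := by
  apply testIdeal_le
  intro e
  obtain ⟨m, hm1, hm2, hm⟩ := prod_t p e
  have hq := q_pos p e
  rw [hm]
  refine (Ideal.mul_mono (a1_pow_le p _) (a2_pow_le p _)).trans ?_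
  refine (monId_mul_le p (U := {v | 9 * p ^ e ≤ v.1 + 6 * v.2}) ?_).trans (monId_le p ?_)
  · rintro ⟨v1, v2⟩ ⟨h1, h2⟩ ⟨w1, w2⟩ ⟨h3, h4⟩
    simp at h1 h2 h3 h4 ⊢
    omega
  · rintro ⟨v1, v2⟩ h1
    apply mem_j2_pow
    simp only [Set.mem_ofPred_eq] at h1 ⊢
    omega

/-- `y ∈ τ(a^t)` for `t = (1/4, 1)` -/
lemma y_mem_test_t : mo p (0, 1) ∈ testIdeal p (aa p) ![1 / 4, 1] := by
  have hq := q_big p
  obtain ⟨m, hm1, hm2, hm⟩ := prod_t p 6
  apply mem_testIdeal p 6 (w := (p ^ 6 - 1, 3 * m + ((p ^ 6 - 1) + 4)))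
  · rw [hm]
    have h1 := mo_mem_a1 p (v := (0, 3 * m)) m 0 0 (by simp)
    have h2 := mo_mem_a2 p (v := (p ^ 6 - 1, (p ^ 6 - 1) + 4)) 1 (p ^ 6 - 1) 0
      (by ext <;> simp only <;> omega)
    have h3 := Ideal.mul_mem_mul h1 h2
    rw [mo_mul] at h3
    convert h3 using 2
    · simp
    · congr 1; omega
    · simp
  · simp only; rw [Nat.div_eq_iff] <;> omega
  · simp only; rw [Nat.div_eq_iff] <;> omega

end poly

/-- **The constancy regions of mixed test ideals need not be connected.** For every prime `p`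
there are two ideals `a₁, a₂` of the polynomial ring `𝔽_p[x, y]` and a point `c ∈ ℝ²_{≥0}`
(in fact `a₁ = (y³, x²y, x⁸)`, `a₂ = (y⁴, xy, x⁷)`, `c = (1, 0)`) whose constancy region
`{c' ≥ 0 : τ(a^{c'}) = τ(a^c)}` is neither connected nor path connected. -/
theorem result (p : ℕ) [Fact p.Prime] :
    ∃ (a : Fin 2 → Ideal (MvPolynomial (Fin 2) (ZMod p))) (c : Fin 2 → ℝ),
      c ∈ constancyRegion p a c ∧ ¬ IsPreconnected (constancyRegion p a c) ∧
      ¬ IsConnected (constancyRegion p a c) ∧ ¬ IsPathConnected (constancyRegion p a c) := by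
  have hmem : (![1, 0] : Fin 2 → ℝ) ∈ constancyRegion p (aa p) ![1, 0] := by
    refine ⟨fun i => ?_, rfl⟩
    fin_cases i <;> simp
  have hmem' : (![0, 5 / 4] : Fin 2 → ℝ) ∈ constancyRegion p (aa p) ![1, 0] := by
    refine ⟨fun i => ?_, ?_⟩
    · fin_cases i <;> norm_num
    · rw [test_c, test_c']
  have main : ¬ IsPreconnected (constancyRegion p (aa p) ![1, 0]) := by
    intro hpre
    have hcont : ContinuousOn (fun t : Fin 2 → ℝ => t 0 - t 1 / 4)
        (constancyRegion p (aa p) ![1, 0]) := by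
      apply Continuous.continuousOn
      fun_prop
    have := hpre.intermediate_value hmem' hmem hcont
    have h0 : (0 : ℝ) ∈ Set.Icc ((![0, 5 / 4] : Fin 2 → ℝ) 0 - (![0, 5 / 4] : Fin 2 → ℝ) 1 / 4)
        ((![1, 0] : Fin 2 → ℝ) 0 - (![1, 0] : Fin 2 → ℝ) 1 / 4) := by
      constructor <;> norm_num
    obtain ⟨t, ⟨ht0, ht⟩, ht1⟩ := this h0
    simp only at ht1
    rw [test_c] at ht
    rcases le_total (t 1) 1 with h | h
    · -- `t ≤ t*`
      have h1 : testIdeal p (aa p) ![1 / 4, 1] ≤ testIdeal p (aa p) t := by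
        apply testIdeal_anti
        intro i
        fin_cases i
        · simp only [Fin.zero_eta, Matrix.cons_val_zero]; linarith
        · simpa using h
      exact y_notMem p (ht ▸ h1 (y_mem_test_t p))
    · have h1 : testIdeal p (aa p) t ≤ testIdeal p (aa p) ![1 / 4, 1] := by
        apply testIdeal_anti
        intro i
        fin_cases i
        · simp only [Fin.zero_eta, Matrix.cons_val_zero]; linarith
        · simpa using h
      rw [ht] at h1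
      have h2 : mo p (2, 0) ∈ j0 p := by
        rw [j0_eq]; apply mo_mem_monId; simp
      exact x2_notMem p (test_t_le p (h1 h2))
  exact ⟨aa p, ![1, 0], hmem, main, fun h => main h.isPreconnected,
    fun h => main h.isConnected.isPreconnected⟩

end Pool.Agent.Results.MP_e15572_ag.Disconnected
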